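import Pool.Agent.W251.GX.Defs

/-!
Project GX (helper251): a Gaussian prime of norm `p`.
-/

set_option autoImplicit false

namespace Pool.Agent.W376.GX

open Pool.Agent.W78.GA (nm prim)
open Pool.Agent.W84.FP (Gi)

theorem not_prim {w : Gi} (h : ¬ prim w) :
    ∃ l : ℕ, l.Prime ∧ (l : ℤ) ∣ w.re ∧ (l : ℤ) ∣ w.im := by
  obtain ⟨l, hl, h1⟩ := Nat.exists_prime_and_dvd h
  have h2 : (l : ℤ) ∣ (Int.gcd w.re w.im : ℤ) := by exact_mod_cast h1
  exact ⟨l, hl, h2.trans (Int.gcd_dvd_left _ _), h2.trans (Int.gcd_dvd_right _ _)⟩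

theorem prim_no {w : Gi} (h : prim w) {l : ℕ} (hl : l.Prime) (h1 : (l : ℤ) ∣ w.re)
    (h2 : (l : ℤ) ∣ w.im) : False := by
  have h3 : (l : ℤ) ∣ (Int.gcd w.re w.im : ℤ) := Int.dvd_coe_gcd h1 h2
  have h4 : Int.gcd w.re w.im = 1 := h
  rw [h4] at h3
  have h5 : l ∣ 1 := by exact_mod_cast h3
  exact hl.one_lt.ne' (Nat.dvd_one.1 h5)

theorem ub : Pool.Agent.W251.GX.S_UB := by
  intro p hp hp4
  have : Fact p.Prime := ⟨hp⟩
  obtain ⟨a, b, hab⟩ := Nat.Prime.sq_add_sq (p := p) (by omega)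
  have hab' : ((a : ℤ)) ^ 2 + (b : ℤ) ^ 2 = p := by exact_mod_cast hab
  have hpz : Prime (p : ℤ) := Nat.prime_iff_prime_int.1 hp
  have hpa : ¬ (p : ℤ) ∣ a := by
    intro h
    have h1 : (p : ℤ) ∣ (b : ℤ) ^ 2 := by
      have h2 : (b : ℤ) ^ 2 = p - a * a := by linarith [hab', sq (a : ℤ)]
      rw [h2]
      exact (dvd_refl _).sub (h.mul_left _)
    have h2 : (p : ℤ) ∣ b := hpz.dvd_of_dvd_pow h1
    obtain ⟨x, hx⟩ := h
    obtain ⟨y, hy⟩ := h2
    have h3 : (p : ℤ) * (p * (x ^ 2 + y ^ 2)) = p * 1 := by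
      rw [hx, hy] at hab'
      linear_combination hab'
    have h4 : (p : ℤ) * (x ^ 2 + y ^ 2) = 1 := mul_left_cancel₀ hpz.ne_zero h3
    exact hpz.not_isUnit (IsUnit.of_mul_eq_one _ h4)
  have hp2 : ¬ (p : ℤ) ∣ 2 := by
    intro h
    have h1 : p ∣ 2 := by exact_mod_cast h
    have h2 := (Nat.prime_dvd_prime_iff_eq hp Nat.prime_two).1 h1
    omega
  set u : Gi := ⟨a, b⟩ with hu
  have hre : ∀ y : Gi, (u * y).re = a * y.re - b * y.im := by
    intro y
    simp [hu]
    ring
  have him : ∀ y : Gi, (u * y).im = b * y.re + a * y.im := by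
    intro y
    simp [hu]
    ring
  have hpr : prim u := by
    by_contra h
    obtain ⟨l, hl, ⟨x, hx⟩, ⟨y, hy⟩⟩ := not_prim h
    change (a : ℤ) = l * x at hx
    change (b : ℤ) = l * y at hy
    have h1 : (l : ℤ) ∣ p := ⟨x * (l * x) + y * (l * y), by
      rw [hx, hy] at hab'
      linear_combination -hab'⟩
    have h2 : l ∣ p := by exact_mod_cast h1
    have h3 := (Nat.prime_dvd_prime_iff_eq hl hp).1 h2
    subst h3
    exact hpa ⟨x, hx⟩
  have key : ∀ z : Gi, prim (u * z) → prim (u * u * z) := by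
    intro z hz
    by_contra h
    obtain ⟨l, hl, h1, h2⟩ := not_prim h
    rw [mul_assoc, hre] at h1
    rw [mul_assoc, him] at h2
    have e1 : (l : ℤ) ∣ p * (u * z).re := by
      have h3 := (h1.mul_left (a : ℤ)).add (h2.mul_left (b : ℤ))
      have h4 : (a : ℤ) * (a * (u * z).re - b * (u * z).im) +
          b * (b * (u * z).re + a * (u * z).im) = p * (u * z).re := by
        rw [← hab']
        ring
      rwa [h4] at h3
    have e2 : (l : ℤ) ∣ p * (u * z).im := by
      have h3 := (h2.mul_left (a : ℤ)).sub (h1.mul_left (b : ℤ))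
      have h4 : (a : ℤ) * (b * (u * z).re + a * (u * z).im) -
          b * (a * (u * z).re - b * (u * z).im) = p * (u * z).im := by
        rw [← hab']
        ring
      rwa [h4] at h3
    have hlz : Prime (l : ℤ) := Nat.prime_iff_prime_int.1 hl
    by_cases hlp : (l : ℤ) ∣ p
    · have h2' : l ∣ p := by exact_mod_cast hlp
      have h3 := (Nat.prime_dvd_prime_iff_eq hl hp).1 h2'
      subst h3
      have f1 : (l : ℤ) ∣ a * (u * z).im - b * (u * z).re := by
        refine ⟨z.im, ?_⟩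
        rw [hre, him, ← hab']
        ring
      have f2 : (l : ℤ) ∣ 2 * (a * (a * (u * z).re)) := by
        have g := (((h1.mul_left (a : ℤ)).add (f1.mul_left (b : ℤ))).add
          ((dvd_refl (l : ℤ)).mul_right (u * z).re))
        have g1 : (a : ℤ) * (a * (u * z).re - b * (u * z).im) +
            b * (a * (u * z).im - b * (u * z).re) + l * (u * z).re =
            2 * (a * (a * (u * z).re)) := by
          rw [← hab']
          ring
        rwa [g1] at g
      have f3 : (l : ℤ) ∣ (u * z).re := by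
        have g1 := (hpz.dvd_or_dvd f2).resolve_left hp2
        have g2 := (hpz.dvd_or_dvd g1).resolve_left hpa
        exact (hpz.dvd_or_dvd g2).resolve_left hpa
      have f4 : (l : ℤ) ∣ (u * z).im := by
        have g1 : (l : ℤ) ∣ a * (u * z).im := by
          have g2 := f1.add (f3.mul_left (b : ℤ))
          rwa [sub_add_cancel] at g2
        exact (hpz.dvd_or_dvd g1).resolve_left hpa
      exact prim_no hz hl f3 f4
    · exact prim_no hz hl ((hlz.dvd_or_dvd e1).resolve_left hlp)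
        ((hlz.dvd_or_dvd e2).resolve_left hlp)
  refine ⟨u, hpr, ?_, ?_, key⟩
  · change ((a : ℤ) ^ 2 + 0 * (a : ℤ) * b + 1 * (b : ℤ) ^ 2).natAbs = p
    have h1 : ((a : ℤ) ^ 2 + 0 * (a : ℤ) * b + 1 * (b : ℤ) ^ 2) = p := by
      rw [← hab']
      ring
    rw [h1, Int.natAbs_natCast]
  · have h1 := key 1 (by rwa [mul_one])
    rwa [mul_one] at h1

end Pool.Agent.W376.GX
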